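import Pool.Agent.T2h66.LL.Stm

/-!
# Task NO: the characters `|·|^s` (helper20, for helper66)
-/

set_option autoImplicit false

noncomputable section

open scoped Polynomial WithZero Topology
open IsDedekindDomain WithZero

namespace Pool.Agent.T2h66.LL.NO20

/-! ### degrees of the places -/

lemma qv_eq {v : Pl} {P : A} (hP0 : P ≠ 0) (hP : v.asIdeal = Ideal.span {P}) :
    qv v = 2 ^ P.natDegree := by
  unfold qv
  rw [hP]
  have h1 : Nat.card (AdjoinRoot P) = Nat.card (ZMod 2) ^ Module.finrank (ZMod 2) (AdjoinRoot P) := by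
    have : Module.Finite (ZMod 2) (AdjoinRoot P) := (AdjoinRoot.powerBasis hP0).finite
    exact Module.natCard_eq_pow_finrank
  rw [(AdjoinRoot.powerBasis hP0).finrank, AdjoinRoot.powerBasis_dim, Nat.card_zmod] at h1
  exact h1

lemma exists_gen (v : Pl) : ∃ P : A, P ≠ 0 ∧ v.asIdeal = Ideal.span {P} := by
  obtain ⟨P, hP⟩ := (IsPrincipalIdealRing.principal v.asIdeal).principal
  have h1 : v.asIdeal = Ideal.span {P} := hP
  refine ⟨P, fun h0 => ?_, h1⟩
  apply v.ne_bot
  rw [h1, h0]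
  exact Ideal.span_singleton_eq_bot.2 rfl

/-- the degree of a place -/
def dg (v : Pl) : ℕ := Nat.log 2 (qv v)

lemma dg_eq {v : Pl} {P : A} (hP0 : P ≠ 0) (hP : v.asIdeal = Ideal.span {P}) :
    dg v = P.natDegree := by
  unfold dg
  rw [qv_eq hP0 hP]
  exact Nat.log_pow (by norm_num) _

lemma qv_dg (v : Pl) : qv v = 2 ^ dg v := by
  obtain ⟨P, h0, hP⟩ := exists_gen v
  rw [dg_eq h0 hP, qv_eq h0 hP]

/-! ### the degree of an idele -/

/-- the exponent at `v` -/
def lv (v : Pl) (x : Afˣ) : ℤ := log (Valued.v ((x : Af) v))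

lemma val_ne (v : Pl) (x : Afˣ) : Valued.v ((x : Af) v) ≠ 0 := by
  rw [Ne, map_eq_zero]
  intro h
  have h1 : ((x * x⁻¹ : Afˣ) : Af) v = (x : Af) v * ((x⁻¹ : Afˣ) : Af) v := rfl
  rw [h, zero_mul, mul_inv_cancel] at h1
  exact one_ne_zero (α := Kv v) h1

lemma lv_mul (v : Pl) (x y : Afˣ) : lv v (x * y) = lv v x + lv v y := by
  unfold lv
  have h1 : ((x * y : Afˣ) : Af) v = (x : Af) v * (y : Af) v := rfl
  rw [h1, map_mul, log_mul (val_ne v x) (val_ne v y)]

lemma lv_fin (x : Afˣ) : (Function.support fun v => (dg v : ℤ) * lv v x).Finite := by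
  have h1 := (FiniteAdeleRing.isUnit_iff.1 x.isUnit).2
  rw [Filter.eventually_cofinite] at h1
  refine h1.subset fun v hv => ?_
  intro h2
  apply hv
  unfold lv
  simp only
  rw [h2, log_one, mul_zero]

/-- the degree of an idele -/
def D : Afˣ × Kiˣ →* Multiplicative ℤ where
  toFun x := Multiplicative.ofAdd (∑ᶠ v, (dg v : ℤ) * lv v x.1 + log (Valued.v ((x.2 : Kiˣ) : Ki)))
  map_one' := by
    have h1 : ∀ v : Pl, lv v 1 = 0 := fun v => by
      have h2 := lv_mul v 1 1
      rw [mul_one] at h2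
      linarith
    have h3 : (fun v => (dg v : ℤ) * lv v (1 : Afˣ × Kiˣ).1) = fun _ => 0 := by
      funext v
      rw [Prod.fst_one, h1, mul_zero]
    rw [h3, finsum_zero, zero_add, Prod.snd_one, Units.val_one, map_one, log_one]
    rfl
  map_mul' x y := by
    rw [← ofAdd_add]
    congr 1
    have h1 : (fun v => (dg v : ℤ) * lv v (x * y).1) =
        fun v => (dg v : ℤ) * lv v x.1 + (dg v : ℤ) * lv v y.1 := by
      funext v
      rw [Prod.fst_mul, lv_mul, mul_add]
    rw [h1, finsum_add_distrib (lv_fin x.1) (lv_fin y.1), Prod.snd_mul, Units.val_mul, map_mul,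
      log_mul ((Valuation.ne_zero_iff _).2 (Units.ne_zero _))
        ((Valuation.ne_zero_iff _).2 (Units.ne_zero _))]
    ring

lemma D_apply (x : Afˣ × Kiˣ) : D x =
    Multiplicative.ofAdd (∑ᶠ v, (dg v : ℤ) * lv v x.1 + log (Valued.v ((x.2 : Kiˣ) : Ki))) := rfl

/-! ### the product formula -/

/-- the degree of an element of `K` -/
def Dk : Kˣ →* Multiplicative ℤ :=
  D.comp ((Units.map (algebraMap K Af : K →* Af)).prod (Units.map (algebraMap K Ki : K →* Ki)))

lemma algA_ne {a : A} (h : a ≠ 0) : algebraMap A K a ≠ 0 := by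
  rwa [Ne, FaithfulSMul.algebraMap_eq_zero_iff]

/-- elements of `A` as units of `K` -/
def uA (a : A) (h : a ≠ 0) : Kˣ := Units.mk0 (algebraMap A K a) (algA_ne h)

lemma lv_uA (v : Pl) {a : A} (h : a ≠ 0) :
    lv v (Units.map (algebraMap K Af : K →* Af) (uA a h)) = log (v.intValuation a) := by
  unfold lv
  congr 1
  have h1 : ((Units.map (algebraMap K Af : K →* Af) (uA a h) : Afˣ) : Af) v =
      ((algebraMap A K a : K) : Kv v) := rfl
  rw [h1, HeightOneSpectrum.valuedAdicCompletion_eq_valuation', HeightOneSpectrum.valuation_of_algebraMap]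

lemma Dk_uA (hIF : S_IF) {a : A} (h : a ≠ 0) : Dk (uA a h) =
    Multiplicative.ofAdd (∑ᶠ v : Pl, (dg v : ℤ) * log (v.intValuation a) + (a.natDegree : ℤ)) := by
  have h1 : Dk (uA a h) = D (Units.map (algebraMap K Af : K →* Af) (uA a h),
    Units.map (algebraMap K Ki : K →* Ki) (uA a h)) := rfl
  rw [h1, D_apply]
  congr 2
  · refine finsum_congr fun v => ?_
    rw [lv_uA]
  · have h2 : (((Units.map (algebraMap K Ki : K →* Ki) (uA a h) : Kiˣ)) : Ki) = aI a := rfl
    rw [h2, hIF.2.2.2 a h, log_exp]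

lemma Dk_A (hIF : S_IF) : ∀ a : A, ∀ h : a ≠ 0, Dk (uA a h) = 1 := by
  intro a
  refine WfDvdMonoid.induction_on_irreducible (motive := fun a => ∀ h : a ≠ 0, Dk (uA a h) = 1) a
    (fun h => absurd rfl h) (fun u hu h => ?_) (fun b i hb hi ih h => ?_)
  · rw [Dk_uA hIF, Polynomial.natDegree_eq_zero_of_isUnit hu]
    have h1 : ∀ v : Pl, (dg v : ℤ) * log (v.intValuation u) = 0 := fun v => by
      have h2 : v.intValuation u = 1 := by
        rw [HeightOneSpectrum.intValuation_eq_one_iff]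
        exact fun h3 => v.isPrime.ne_top (Ideal.eq_top_of_isUnit_mem _ h3 hu)
      rw [h2, log_one, mul_zero]
    simp only [h1, finsum_zero]
    rfl
  · have hi0 : i ≠ 0 := hi.ne_zero
    have h1 : uA (i * b) h = uA i hi0 * uA b hb := by
      apply Units.ext
      change algebraMap A K (i * b) = algebraMap A K i * algebraMap A K b
      exact map_mul _ _ _
    rw [h1, map_mul, ih hb, mul_one, Dk_uA hIF]
    have hp : (Ideal.span {i}).IsPrime := (Ideal.span_singleton_prime hi0).2 hi.prime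
    have hbot : Ideal.span {i} ≠ (⊥ : Ideal A) := fun h2 => hi0 (Ideal.span_singleton_eq_bot.1 h2)
    let v0 : Pl := ⟨Ideal.span {i}, hp, hbot⟩
    have h2 : ∀ v : Pl, v ≠ v0 → (dg v : ℤ) * log (v.intValuation i) = 0 := by
      intro v hv
      have h3 : v.intValuation i = 1 := by
        rw [HeightOneSpectrum.intValuation_eq_one_iff]
        intro h4
        apply hv
        have hmax : (Ideal.span {i}).IsMaximal := PrincipalIdealRing.isMaximal_of_irreducible hi
        have h5 : Ideal.span {i} = v.asIdeal :=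
          hmax.eq_of_le v.isPrime.ne_top ((Ideal.span_singleton_le_iff_mem _).2 h4)
        exact HeightOneSpectrum.ext h5.symm
      rw [h3, log_one, mul_zero]
    rw [finsum_eq_single _ v0 h2, HeightOneSpectrum.intValuation_singleton v0 hi0 rfl, log_exp,
      dg_eq (v := v0) hi0 rfl]
    have h6 : (i.natDegree : ℤ) * -1 + (i.natDegree : ℤ) = 0 := by ring
    rw [h6]
    rfl

lemma Dk_one (hIF : S_IF) (x : Kˣ) : Dk x = 1 := by
  obtain ⟨a, b, hb, hab⟩ := IsFractionRing.div_surjective (A := A) (x : K)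
  have hb0 : b ≠ 0 := nonZeroDivisors.ne_zero hb
  have ha0 : a ≠ 0 := by
    rintro rfl
    rw [map_zero, zero_div] at hab
    exact x.ne_zero hab.symm
  have h1 : x * uA b hb0 = uA a ha0 := by
    apply Units.ext
    change (x : K) * algebraMap A K b = algebraMap A K a
    rw [← hab, div_mul_cancel₀ _ (algA_ne hb0)]
  have h2 := congrArg Dk h1
  rwa [map_mul, Dk_A hIF, Dk_A hIF, mul_one] at h2

/-! ### continuity -/

/-- the ideles which are units at all places are open -/
lemma D_near : ∀ᶠ x : Afˣ × Kiˣ in 𝓝 1, D x = 1 := by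
  have hO : IsOpen {f : Af | ∀ v : Pl, Valued.v (f v) ≤ 1} := by
    have h1 : ∀ v : Pl, IsOpen (v.adicCompletionIntegers K : Set (v.adicCompletion K)) :=
      fun _ => Valued.isOpen_valuationSubring _
    exact RestrictedProduct.isOpen_forall_mem h1
  have hI : IsOpen {y : Ki | Valued.v y ≤ 1} := Valued.isOpen_valuationSubring Ki
  have c1 : Continuous fun x : Afˣ × Kiˣ => ((x.1 : Afˣ) : Af) :=
    Units.continuous_val.comp continuous_fst
  have c2 : Continuous fun x : Afˣ × Kiˣ => ((x.1⁻¹ : Afˣ) : Af) :=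
    Units.continuous_val.comp (continuous_inv.comp continuous_fst)
  have c3 : Continuous fun x : Afˣ × Kiˣ => ((x.2 : Kiˣ) : Ki) :=
    Units.continuous_val.comp continuous_snd
  have c4 : Continuous fun x : Afˣ × Kiˣ => ((x.2⁻¹ : Kiˣ) : Ki) :=
    Units.continuous_val.comp (continuous_inv.comp continuous_snd)
  have hone : ∀ v : Pl, ((1 : Af) : Af) v = (1 : Kv v) := fun v => rfl
  have e1 := (hO.preimage c1).mem_nhds (x := 1) (by
    intro v
    change Valued.v ((1 : Kv v)) ≤ 1
    rw [map_one])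
  have e2 := (hO.preimage c2).mem_nhds (x := 1) (by
    intro v
    have : (((1 : Afˣ × Kiˣ).1⁻¹ : Afˣ) : Af) v = (1 : Kv v) := by
      rw [Prod.fst_one, inv_one]
      rfl
    rw [this, map_one])
  have e3 := (hI.preimage c3).mem_nhds (x := 1) (by
    change Valued.v (((1 : Kiˣ) : Ki)) ≤ 1
    rw [Units.val_one, map_one])
  have e4 := (hI.preimage c4).mem_nhds (x := 1) (by
    change Valued.v ((((1 : Afˣ × Kiˣ).2⁻¹ : Kiˣ) : Ki)) ≤ 1
    rw [Prod.snd_one, inv_one, Units.val_one, map_one])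
  filter_upwards [e1, e2, e3, e4] with x h1 h2 h3 h4
  rw [D_apply]
  have k1 : ∀ v : Pl, (dg v : ℤ) * lv v x.1 = 0 := by
    intro v
    have g1 : Valued.v ((x.1 : Af) v) ≤ 1 := h1 v
    have g2 : Valued.v (((x.1⁻¹ : Afˣ) : Af) v) ≤ 1 := h2 v
    have g3 : Valued.v ((x.1 : Af) v) * Valued.v (((x.1⁻¹ : Afˣ) : Af) v) = 1 := by
      rw [← map_mul]
      have g4 : (x.1 : Af) v * ((x.1⁻¹ : Afˣ) : Af) v = ((x.1 * x.1⁻¹ : Afˣ) : Af) v := rfl
      rw [g4, mul_inv_cancel]
      change Valued.v ((1 : Kv v)) = 1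
      rw [map_one]
    have g5 : Valued.v ((x.1 : Af) v) = 1 :=
      le_antisymm g1 (by rw [← g3]; exact mul_le_of_le_one_right' g2)
    unfold lv
    rw [g5, log_one, mul_zero]
  have k2 : Valued.v ((x.2 : Kiˣ) : Ki) = 1 := by
    have g3 : Valued.v ((x.2 : Kiˣ) : Ki) * Valued.v ((x.2⁻¹ : Kiˣ) : Ki) = 1 := by
      rw [← map_mul, ← Units.val_mul, mul_inv_cancel, Units.val_one, map_one]
    exact le_antisymm h3 (by rw [← g3]; exact mul_le_of_le_one_right' h4)
  simp only [k1, finsum_zero, k2, log_one, add_zero]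
  rfl

/-! ### the characters -/

/-- `2 ^ s` -/
def us (s : ℝ) : ℂˣ := Units.mk0 (((2 : ℝ) ^ s : ℝ) : ℂ)
  (Complex.ofReal_ne_zero.2 (Real.rpow_pos_of_pos (by norm_num) s).ne')

lemma us_zpow (s : ℝ) (n : ℤ) :
    (((us s) ^ n : ℂˣ) : ℂ) = ((((2 : ℝ) ^ n) ^ s : ℝ) : ℂ) := by
  rw [Units.val_zpow_eq_zpow_val]
  unfold us
  rw [Units.val_mk0, ← Complex.ofReal_zpow]
  congr 1
  rw [← Real.rpow_intCast, ← Real.rpow_intCast, ← Real.rpow_mul (by norm_num),
    ← Real.rpow_mul (by norm_num), mul_comm]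

/-- the character -/
def ch (s : ℝ) : Afˣ × Kiˣ →* ℂˣ := (zpowersHom ℂˣ (us s)).comp D

lemma ch_apply (s : ℝ) (x : Afˣ × Kiˣ) : ch s x = us s ^ (Multiplicative.toAdd (D x)) := rfl

end NO20

open NO20

/-- **NO** -/
theorem t_NO : S_IF → S_NO := by
  intro hIF s
  refine ⟨ch s, ⟨?_, fun x => ?_⟩, fun v x => ?_, fun x => ?_⟩
  · refine continuous_of_continuousAt_one _ ?_
    have h1 : ∀ᶠ x : Afˣ × Kiˣ in 𝓝 1, ch s x = 1 := by
      filter_upwards [D_near] with x hx
      rw [ch_apply, hx, toAdd_one, zpow_zero]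
    refine ContinuousAt.congr (f := fun _ => (1 : ℂˣ)) continuousAt_const ?_
    filter_upwards [h1] with x hx
    exact hx.symm
  · have h1 : D (Units.map (algebraMap K Af : K →* Af) x,
      Units.map (algebraMap K Ki : K →* Ki) x) = Dk x := rfl
    rw [ch_apply, h1, Dk_one hIF, toAdd_one, zpow_zero]
  · have h1 : chiV (ch s) v x = ch s (Units.map (updHom v) x, 1) := rfl
    have h2 : ∀ w : Pl, w ≠ v → (dg w : ℤ) * lv w (Units.map (updHom v) x) = 0 := by
      intro w hw
      have h3 : ((Units.map (updHom v) x : Afˣ) : Af) w = (1 : Kv w) := upd_ne v _ 1 hw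
      unfold lv
      rw [h3, map_one, log_one, mul_zero]
    have h4 : lv v (Units.map (updHom v) x) = log (Valued.v ((x : (Kv v)ˣ) : Kv v)) := by
      unfold lv
      have h3 : ((Units.map (updHom v) x : Afˣ) : Af) v = ((x : (Kv v)ˣ) : Kv v) :=
        upd_same v _ 1
      rw [h3]
    rw [h1, ch_apply, D_apply, toAdd_ofAdd, us_zpow]
    congr 2
    rw [finsum_eq_single _ v h2, Units.val_one, map_one, log_one, add_zero, h4]
    unfold nrm
    rw [qv_dg]
    push_cast
    rw [zpow_mul, zpow_natCast]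
  · have h1 : chiI (ch s) x = ch s (1, x) := rfl
    have h2 : ∀ w : Pl, (dg w : ℤ) * lv w 1 = 0 := by
      intro w
      have h2 := lv_mul w 1 1
      rw [mul_one] at h2
      have h3 : lv w 1 = 0 := by linarith
      rw [h3, mul_zero]
    rw [h1, ch_apply, D_apply, toAdd_ofAdd, us_zpow]
    congr 2
    simp only [h2, finsum_zero, zero_add]
    unfold nrm
    push_cast
    rfl

end Pool.Agent.T2h66.LL
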